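import Pool.Agent.H95.FI.Defs

set_option autoImplicit false

open MvPolynomial

namespace H89.FI
open H95.FG H95.FI

theorem dt_expand {r r' : ℕ} (x0 y0 : Fin r → ℂ) (u v : Fin r' → Fin r → ℂ) (p q : Fin r' → ℂ)
    (h0 : dt x0 y0 = 0) (h1 : ∀ j, dt x0 (v j) = 0) (h2 : ∀ i, dt (u i) y0 = 0)
    (h3 : ∀ i j, dt (u i) (v j) = if i = j then 1 else 0) :
    ∑ k, (x0 k + ∑ i, u i k * p i) * (y0 k + ∑ j, v j k * q j) = ∑ i, p i * q i := by
  have e1 : ∀ k, (x0 k + ∑ i, u i k * p i) * (y0 k + ∑ j, v j k * q j) =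
      x0 k * y0 k + (∑ j, (x0 k * v j k) * q j) + (∑ i, (u i k * y0 k) * p i) +
        ∑ i, ∑ j, (u i k * v j k) * (p i * q j) := by
    intro k
    have a1 : x0 k * ∑ j, v j k * q j = ∑ j, (x0 k * v j k) * q j := by
      rw [Finset.mul_sum]
      exact Finset.sum_congr rfl (fun j _ => by ring)
    have a2 : (∑ i, u i k * p i) * y0 k = ∑ i, (u i k * y0 k) * p i := by
      rw [Finset.sum_mul]
      exact Finset.sum_congr rfl (fun j _ => by ring)
    have a3 : (∑ i, u i k * p i) * (∑ j, v j k * q j) =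
        ∑ i, ∑ j, (u i k * v j k) * (p i * q j) := by
      rw [Finset.sum_mul_sum]
      exact Finset.sum_congr rfl (fun i _ => Finset.sum_congr rfl (fun j _ => by ring))
    rw [add_mul, mul_add, mul_add, a1, a2, a3]
    ring
  rw [Finset.sum_congr rfl (fun k _ => e1 k), Finset.sum_add_distrib, Finset.sum_add_distrib,
    Finset.sum_add_distrib]
  have b0 : ∑ k, x0 k * y0 k = 0 := h0
  have b1 : ∑ k, ∑ j, (x0 k * v j k) * q j = 0 := by
    rw [Finset.sum_comm]
    apply Finset.sum_eq_zero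
    intro j _
    rw [← Finset.sum_mul]
    have := h1 j
    unfold dt at this
    rw [this, zero_mul]
  have b2 : ∑ k, ∑ i, (u i k * y0 k) * p i = 0 := by
    rw [Finset.sum_comm]
    apply Finset.sum_eq_zero
    intro j _
    rw [← Finset.sum_mul]
    have := h2 j
    unfold dt at this
    rw [this, zero_mul]
  have b3 : ∑ k, ∑ i, ∑ j, (u i k * v j k) * (p i * q j) = ∑ i, p i * q i := by
    rw [Finset.sum_comm]
    apply Finset.sum_congr rfl
    intro i _
    rw [Finset.sum_comm]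
    have : ∀ j, ∑ k, (u i k * v j k) * (p i * q j) = if i = j then p i * q j else 0 := by
      intro j
      rw [← Finset.sum_mul]
      have h4 := h3 i j
      unfold dt at h4
      rw [h4]
      split_ifs <;> simp
    rw [Finset.sum_congr rfl (fun j _ => this j)]
    simp
  rw [b0, b1, b2, b3]
  ring

theorem t_RK2 (hRKA : S_RKA) (hDUAL : S_DUAL) (hRKB : S_RKB) : S_RK2 := by
  classical
  intro r M f g B hr hB hsum
  obtain ⟨e, B', x0, y0, hBe, hxy, hne⟩ := hRKA r B hr hB
  obtain ⟨r', u, v, hr', _, hu, hv, huv, _⟩ := hDUAL r 1 (fun _ => x0) (fun _ => y0) (by omega)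
  have hu' : ∀ i, dt (u i) y0 = 0 := fun i => hu i 0
  have hv' : ∀ j, dt x0 (v j) = 0 := fun j => hv 0 j
  let φ1 : Fin r → Pn r' := fun k => C (x0 k) + ∑ i, C (u i k) * X i
  let φ2 : Fin r → Pn r' := fun k => C (y0 k) + ∑ j, C (v j k) * X j
  let Φ : Fin r ⊕ Fin r → Qn r' := Sum.elim (fun k => rename Sum.inl (φ1 k))
    (fun k => rename Sum.inr (φ2 k))
  have c1 : ∀ p : Pn r, aeval Φ (rename Sum.inl p) = rename Sum.inl (aeval φ1 p) := by
    intro p
    rw [aeval_rename]
    have : (aeval (Φ ∘ Sum.inl) : Pn r →ₐ[ℂ] Qn r') = (rename Sum.inl).comp (aeval φ1) := by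
      apply MvPolynomial.algHom_ext
      intro k
      simp [Φ]
    rw [this]
    rfl
  have c2 : ∀ p : Pn r, aeval Φ (rename Sum.inr p) = rename Sum.inr (aeval φ2 p) := by
    intro p
    rw [aeval_rename]
    have : (aeval (Φ ∘ Sum.inr) : Pn r →ₐ[ℂ] Qn r') = (rename Sum.inr).comp (aeval φ2) := by
      apply MvPolynomial.algHom_ext
      intro k
      simp [Φ]
    rw [this]
    rfl
  have cS : aeval Φ (SS r) = SS r' := by
    apply MvPolynomial.funext
    intro z
    have e1 : ∀ k, eval z (Φ (Sum.inl k)) = x0 k + ∑ i, u i k * z (Sum.inl i) := by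
      intro k
      simp [Φ, φ1]
    have e2 : ∀ k, eval z (Φ (Sum.inr k)) = y0 k + ∑ i, v i k * z (Sum.inr i) := by
      intro k
      simp [Φ, φ2]
    have e3 : eval z (aeval Φ (SS r)) = ∑ k, eval z (Φ (Sum.inl k)) * eval z (Φ (Sum.inr k)) := by
      simp [SS]
    rw [e3]
    simp only [e1, e2]
    rw [dt_expand x0 y0 u v (fun i => z (Sum.inl i)) (fun i => z (Sum.inr i)) hxy hv' hu' huv]
    simp [SS]
  have hmain : ∑ l, rename Sum.inl (aeval φ1 (f l)) * rename Sum.inr (aeval φ2 (g l)) =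
      (SS r') ^ (e + 2) * aeval Φ B' := by
    have h1 := congrArg (aeval Φ) hsum
    rw [map_sum] at h1
    simp only [map_mul, c1, c2, map_pow, cS] at h1
    rw [h1, hBe, map_mul, map_pow, cS]
    ring
  have hcc : constantCoeff (aeval Φ B') ≠ 0 := by
    have h1 : constantCoeff (aeval Φ B') = AA B' x0 y0 := by
      have h2 : constantCoeff (aeval Φ B') = eval (fun _ => (0 : ℂ)) (aeval Φ B') := by
        rw [MvPolynomial.eval_zero']
      rw [h2]
      have h3 : ((aeval (fun _ => (0 : ℂ)) : Qn r' →ₐ[ℂ] ℂ).comp (aeval Φ)) =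
          (aeval (Sum.elim x0 y0) : Qn r →ₐ[ℂ] ℂ) := by
        apply MvPolynomial.algHom_ext
        rintro (k | k)
        · simp [Φ, φ1]
        · simp [Φ, φ2]
      have h4 := congrArg (fun F => F B') h3
      simp only [AlgHom.comp_apply] at h4
      exact h4
    rw [h1]
    exact hne
  have h5 := hRKB r' (e + 2) M _ _ _ (by omega) hcc hmain
  have h6 : r - 2 ≤ r' := by omega
  have h7 : r - 1 ≤ r' + 1 := by omega
  exact (Nat.mul_le_mul h6 h7).trans h5

end H89.FI
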