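import Pool.Agent.H95.FI.Defs

set_option autoImplicit false

open MvPolynomial

namespace H89.FI
open H95.FG H95.FI

theorem mapDomain_sumElim {r : ℕ} (a b : Fin r →₀ ℕ) :
    a.mapDomain (Sum.inl : Fin r → Fin r ⊕ Fin r) + b.mapDomain (Sum.inr : Fin r → Fin r ⊕ Fin r) =
      Finsupp.sumElim a b := by
  ext x
  rcases x with k | k
  · rw [Finsupp.add_apply, Finsupp.mapDomain_apply Sum.inl_injective,
      Finsupp.mapDomain_notin_range _ _ (by simp), add_zero]
    rfl
  · rw [Finsupp.add_apply, Finsupp.mapDomain_apply Sum.inr_injective,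
      Finsupp.mapDomain_notin_range _ _ (by simp), zero_add]
    rfl

theorem sumElim_inj {r : ℕ} {a b a' b' : Fin r →₀ ℕ}
    (h : Finsupp.sumElim a b = Finsupp.sumElim a' b') : a = a' ∧ b = b' := by
  constructor
  · ext k
    exact DFunLike.congr_fun h (Sum.inl k)
  · ext k
    exact DFunLike.congr_fun h (Sum.inr k)

theorem coeff_prod {r : ℕ} (f g : Pn r) (α β : Fin r →₀ ℕ) :
    coeff (Finsupp.sumElim α β) (rename Sum.inl f * rename Sum.inr g : Qn r) =
      coeff α f * coeff β g := by
  induction f using MvPolynomial.induction_on' with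
  | monomial a c =>
    induction g using MvPolynomial.induction_on' with
    | monomial b d =>
      rw [rename_monomial, rename_monomial, monomial_mul, mapDomain_sumElim, coeff_monomial,
        coeff_monomial, coeff_monomial]
      by_cases h1 : a = α
      · by_cases h2 : b = β
        · rw [h1, h2]; simp
        · rw [if_neg (fun h => h2 (sumElim_inj h).2), if_neg h2, mul_zero]
      · rw [if_neg (fun h => h1 (sumElim_inj h).1), if_neg h1, zero_mul]
    | add p q hp hq =>
      rw [map_add, mul_add, coeff_add, coeff_add, hp, hq, mul_add]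
  | add p q hp hq =>
    rw [map_add, add_mul, coeff_add, coeff_add, hp, hq, add_mul]

/-- coefficient after multiplication by `x_k y_k` -/
theorem coeff_XX {r : ℕ} (R : Qn r) (k : Fin r) (α β : Fin r →₀ ℕ) :
    coeff (Finsupp.sumElim α β) (X (Sum.inl k) * X (Sum.inr k) * R : Qn r) =
      if 1 ≤ α k ∧ 1 ≤ β k then
        coeff (Finsupp.sumElim (α - Finsupp.single k 1) (β - Finsupp.single k 1)) R else 0 := by
  have h1 : (X (Sum.inl k) * X (Sum.inr k) : Qn r) =
      monomial (Finsupp.single (Sum.inl k) 1 + Finsupp.single (Sum.inr k) 1) 1 := by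
    simp only [X, monomial_mul, mul_one]
  rw [h1, coeff_monomial_mul']
  have h2 : (Finsupp.single (Sum.inl k) 1 + Finsupp.single (Sum.inr k) 1 :
      Fin r ⊕ Fin r →₀ ℕ) ≤ Finsupp.sumElim α β ↔ 1 ≤ α k ∧ 1 ≤ β k := by
    constructor
    · intro h
      constructor
      · have := h (Sum.inl k)
        simpa using this
      · have := h (Sum.inr k)
        simpa using this
    · rintro ⟨ha, hb⟩ x
      rcases x with j | j
      · by_cases hj : k = j
        · subst hj; simpa using ha
        · simp [Finsupp.single_apply, hj]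
      · by_cases hj : k = j
        · subst hj; simpa using hb
        · simp [Finsupp.single_apply, hj]
  by_cases h : 1 ≤ α k ∧ 1 ≤ β k
  · rw [if_pos (h2.2 h), if_pos h, one_mul]
    congr 1
    ext x
    rcases x with j | j
    · simp [Finsupp.single_apply]
    · simp [Finsupp.single_apply]
  · rw [if_neg (fun hh => h (h2.1 hh)), if_neg h]

theorem sum_single {r : ℕ} (i : Fin r) (c : ℕ) :
    ∑ j, (Finsupp.single i c : Fin r →₀ ℕ) j = c := by
  simp [Finsupp.single_apply]

theorem sum_sub_single {r : ℕ} (α : Fin r →₀ ℕ) (k : Fin r) (h : 1 ≤ α k) (e : ℕ)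
    (hs : ∑ j, α j = e + 1) : ∑ j, (α - Finsupp.single k 1 : Fin r →₀ ℕ) j = e := by
  have h1 : α - Finsupp.single k 1 + Finsupp.single k 1 = α :=
    tsub_add_cancel_of_le (Finsupp.single_le_iff.2 h)
  have h2 : ∑ j, α j = ∑ j, (α - Finsupp.single k 1 : Fin r →₀ ℕ) j +
      ∑ j, (Finsupp.single k 1 : Fin r →₀ ℕ) j := by
    rw [← Finset.sum_add_distrib]
    apply Finset.sum_congr rfl
    intro j _
    conv_lhs => rw [← h1]
    rfl
  have h3 : ∑ j, (Finsupp.single k 1 : Fin r →₀ ℕ) j = 1 := sum_single k 1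
  omega

theorem coeff_SS {r : ℕ} (B : Qn r) : ∀ (e : ℕ) (α β : Fin r →₀ ℕ), ∑ j, α j = e → ∑ j, β j = e →
    (α ≠ β → coeff (Finsupp.sumElim α β) ((SS r) ^ e * B) = 0) ∧
    (α = β → ∃ N : ℕ, 0 < N ∧ coeff (Finsupp.sumElim α β) ((SS r) ^ e * B) =
      N * constantCoeff B) := by
  intro e
  induction e with
  | zero =>
    intro α β hα hβ
    have ha : α = 0 := by
      ext k
      exact Finset.sum_eq_zero_iff.1 hα k (Finset.mem_univ k)
    have hb : β = 0 := by
      ext k
      exact Finset.sum_eq_zero_iff.1 hβ k (Finset.mem_univ k)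
    refine ⟨fun h => absurd (ha.trans hb.symm) h, fun _ => ⟨1, one_pos, ?_⟩⟩
    have h0 : (Finsupp.sumElim α β : Fin r ⊕ Fin r →₀ ℕ) = 0 := by
      rw [ha, hb]
      ext x
      rcases x with j | j <;> rfl
    rw [h0, pow_zero, one_mul, Nat.cast_one, one_mul]
    rfl
  | succ e ih =>
    intro α β hα hβ
    have h1 : (SS r) ^ (e + 1) * B = ∑ k : Fin r, X (Sum.inl k) * X (Sum.inr k) *
        ((SS r) ^ e * B) := by
      rw [pow_succ', mul_assoc]
      conv_lhs => rw [SS]
      rw [Finset.sum_mul]
      rfl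
    rw [h1, coeff_sum]
    simp only [coeff_XX]
    constructor
    · intro hne
      apply Finset.sum_eq_zero
      intro k _
      by_cases hk : 1 ≤ α k ∧ 1 ≤ β k
      · rw [if_pos hk]
        apply (ih _ _ (sum_sub_single α k hk.1 e hα) (sum_sub_single β k hk.2 e hβ)).1
        intro heq
        apply hne
        rw [← tsub_add_cancel_of_le (Finsupp.single_le_iff.2 hk.1),
          ← tsub_add_cancel_of_le (Finsupp.single_le_iff.2 hk.2), heq]
      · rw [if_neg hk]
    · intro heq
      subst heq
      have h2 : ∀ k : Fin r, ∃ N : ℕ, (1 ≤ α k → 0 < N) ∧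
          (if 1 ≤ α k ∧ 1 ≤ α k then
            coeff (Finsupp.sumElim (α - Finsupp.single k 1) (α - Finsupp.single k 1))
              ((SS r) ^ e * B) else 0) = N * constantCoeff B := by
        intro k
        by_cases hk : 1 ≤ α k
        · obtain ⟨N, hN, hN2⟩ := (ih _ _ (sum_sub_single α k hk e hα)
            (sum_sub_single α k hk e hα)).2 rfl
          exact ⟨N, fun _ => hN, by rw [if_pos ⟨hk, hk⟩, hN2]⟩
        · exact ⟨0, fun h => absurd h hk, by rw [if_neg (fun h => hk h.1)]; simp⟩
      choose N hN1 hN2 using h2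
      refine ⟨∑ k, N k, ?_, ?_⟩
      · obtain ⟨k, hk⟩ : ∃ k, 1 ≤ α k := by
          by_contra hcon
          push Not at hcon
          have : ∑ j, α j = 0 := Finset.sum_eq_zero (fun j _ => by have := hcon j; omega)
          omega
        exact lt_of_lt_of_le (hN1 k hk) (Finset.single_le_sum (fun j _ => Nat.zero_le _)
          (Finset.mem_univ k))
      · rw [Finset.sum_congr rfl (fun k _ => hN2 k), ← Finset.sum_mul, Nat.cast_sum]

theorem t_RKB : S_RKB := by
  classical
  intro r e M f g B he hB hsum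
  rcases Nat.eq_zero_or_pos r with hr | hr
  · subst hr; simp
  -- index set
  let i0 : Fin r := ⟨0, hr⟩
  let al : Sym (Fin r) 2 → (Fin r →₀ ℕ) := fun s =>
    Multiset.toFinsupp (s : Multiset (Fin r)) + Finsupp.single i0 (e - 2)
  have hal : Function.Injective al := by
    intro s t hst
    have h1 : Multiset.toFinsupp (s : Multiset (Fin r)) =
        Multiset.toFinsupp (t : Multiset (Fin r)) := add_right_cancel hst
    exact Subtype.ext (Multiset.toFinsupp.injective h1)
  have hdeg : ∀ s, ∑ j, al s j = e := by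
    intro s
    simp only [al, Finsupp.add_apply, Finset.sum_add_distrib]
    have h1 : ∑ j, (Finsupp.single i0 (e - 2) : Fin r →₀ ℕ) j = e - 2 := sum_single i0 (e - 2)
    have h2 : ∑ j, (Multiset.toFinsupp (s : Multiset (Fin r))) j = 2 := by
      have h3 : ∀ j, (Multiset.toFinsupp (s : Multiset (Fin r))) j =
          Multiset.count j (s : Multiset (Fin r)) := fun j => Multiset.toFinsupp_apply _ _
      rw [Finset.sum_congr rfl (fun j _ => h3 j), Multiset.sum_count_eq_card (by simp)]
      exact s.2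
    rw [h1, h2]
    omega
  let P : Matrix (Sym (Fin r) 2) (Fin M) ℂ := Matrix.of fun s l => coeff (al s) (f l)
  let Q : Matrix (Fin M) (Sym (Fin r) 2) ℂ := Matrix.of fun l s => coeff (al s) (g l)
  have hent : ∀ s t, (P * Q) s t =
      coeff (Finsupp.sumElim (al s) (al t)) ((SS r) ^ e * B) := by
    intro s t
    rw [← hsum, coeff_sum, Matrix.mul_apply]
    apply Finset.sum_congr rfl
    intro l _
    rw [coeff_prod]
    rfl
  have hdiag : ∀ s, (P * Q) s s ≠ 0 := by
    intro s
    obtain ⟨N, hN, hN2⟩ := (coeff_SS B e (al s) (al s) (hdeg s) (hdeg s)).2 rfl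
    rw [hent, hN2]
    exact mul_ne_zero (by exact_mod_cast hN.ne') hB
  have hPQ : P * Q = Matrix.diagonal (fun s => (P * Q) s s) := by
    ext s t
    by_cases hst : s = t
    · subst hst; simp
    · rw [Matrix.diagonal_apply_ne _ hst, hent]
      exact (coeff_SS B e (al s) (al t) (hdeg s) (hdeg t)).1 (fun h => hst (hal h))
  have hU : IsUnit (P * Q) := by
    rw [Matrix.isUnit_iff_isUnit_det, hPQ, Matrix.det_diagonal, isUnit_iff_ne_zero]
    exact Finset.prod_ne_zero_iff.2 (fun s _ => hdiag s)
  have hrank := Matrix.rank_of_isUnit _ hU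
  have h1 : (P * Q).rank ≤ P.rank := Matrix.rank_mul_le_left P Q
  have h2 : P.rank ≤ Fintype.card (Fin M) := Matrix.rank_le_card_width P
  rw [Fintype.card_fin] at h2
  have h3 : Fintype.card (Sym (Fin r) 2) = (r + 1).choose 2 := by
    rw [Sym.card_sym_eq_choose, Fintype.card_fin]
    congr 1
  rw [hrank, h3] at h1
  have h4 : (r + 1).choose 2 ≤ M := h1.trans h2
  rw [Nat.choose_two_right] at h4
  have h5 : (r + 1) * (r + 1 - 1) = r * (r + 1) := by
    rw [Nat.add_sub_cancel]; ring
  rw [h5] at h4
  have h6 : 2 ∣ r * (r + 1) := (Nat.even_mul_succ_self r).two_dvd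
  omega

end H89.FI
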